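import Pool.Agent.H.MP_c7c9a4_al.Lay
import Pool.Agent.Lib.helper22.IM

set_option autoImplicit false

namespace Pool.Agent.H.MP_c7c9a4_al

open SimpleGraph

variable {V : Type} {G : SimpleGraph V}

/-- vertices on the boundary of a cut -/
def Cut (G : SimpleGraph V) (α : V → Prop) (x : V) : Prop := ∃ z, G.Adj x z ∧ ¬ (α x ↔ α z)

/-- closed pieces of cuts are cuts -/
def Loc (G : SimpleGraph V) (k : ℕ) : Prop :=
  ∀ α P : V → Prop, (∀ x y, Cut G α x → Cut G α y → G.dist x y ≤ k → P x → P y) →
    ∃ β : V → Prop, ∀ x y, G.Adj x y → ((β x ↔ β y) ↔ (P x → (α x ↔ α y)))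

theorem gap [Nonempty V] (W c : ℕ) (T : Finset V) (hT : T.card ≤ W) (f : V → ℕ) (b : ℕ) :
    ∃ j ≤ W, ∀ x ∈ T, ¬ (b + c * j < f x ∧ f x ≤ b + c * (j + 1)) := by
  classical
  by_contra h
  push Not at h
  choose! g g1 g2 using h
  have : (Finset.range (W + 1)).card ≤ T.card := Finset.card_le_card_of_injOn g
    (fun j hj => g1 j (by simpa [Nat.lt_succ_iff] using hj)) fun i hi j hj e => by
      have a := g2 i (by simpa [Nat.lt_succ_iff] using hi)
      have b := g2 j (by simpa [Nat.lt_succ_iff] using hj)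
      rw [e] at a
      by_contra ne
      rcases lt_or_gt_of_ne ne with l | l
      · have := Nat.mul_le_mul_left c (show i + 1 ≤ j from l); omega
      · have := Nat.mul_le_mul_left c (show j + 1 ≤ i from l); omega
  simp at this
  omega

theorem const {n : ℕ} {β : ℕ → Prop} {s t : ℕ} (h : s ≤ t) (ht : t ≤ n)
    (k : ∀ i, s ≤ i → i < t → (β i ↔ β (i + 1))) : β s ↔ β t := by
  induction t, h using Nat.le_induction with
  | base => rfl
  | succ t h ih => exact (ih (by omega) fun i a b => k i a (by omega)).trans (k t h (by omega))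

theorem sep (hc : G.Connected) {k W : ℕ} (hl : Loc G k) {α : V → Prop} (T : Finset V)
    (hT : T.card ≤ W) (hα : ∀ x, Cut G α x → x ∈ T) {γ : ℕ → V} {n s t : ℕ} (g : Geo G γ n)
    (st : s ≤ t) (tn : t ≤ n) (d : ¬ (α (γ s) ↔ α (γ t)))
    (gs : ∀ i ≤ n, γ i ∈ T → i ≤ s → i + k * W < s) (gt : ∀ i ≤ n, γ i ∈ T → t ≤ i → t + k * W < i) :
    ¬ Con G (fun x => t - s + 2 * (k * W) < G.dist (γ s) x) (γ 0) (γ n) := by
  haveI := hc.nonempty
  obtain ⟨j, hj, h⟩ := gap W (2 * k) T hT (fun z => G.dist (γ s) z + G.dist (γ t) z) (t - s)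
  have jw := Nat.mul_le_mul_left k hj
  obtain ⟨β, hβ⟩ := hl α (fun z => G.dist (γ s) z + G.dist (γ t) z ≤ t - s + 2 * k * j) fun x y _ b c e => by
    have := h y (hα y b)
    have := hc.dist_triangle (u := γ s) (v := x) (w := y)
    have := hc.dist_triangle (u := γ t) (v := x) (w := y)
    rw [mul_add] at *
    omega
  rw [mul_assoc] at hβ
  have b1 : β (γ 0) ↔ β (γ s) := const (n := n) (β := fun i => β (γ i)) (by omega) (by omega) fun i _ l =>
    (hβ _ _ (g.adj i (by omega))).2 fun e => by
      by_contra c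
      have := gs i (by omega) (hα _ ⟨_, g.adj i (by omega), c⟩) l.le
      rw [G.dist_comm, G.dist_comm (u := γ t), g.dist i s (by omega) (by omega), g.dist i t (by omega) tn] at e
      omega
  have b2 : β (γ t) ↔ β (γ n) := const (n := n) (β := fun i => β (γ i)) tn le_rfl fun i l _ =>
    (hβ _ _ (g.adj i (by omega))).2 fun e => by
      by_contra c
      have := gt i (by omega) (hα _ ⟨_, g.adj i (by omega), c⟩) l
      rw [g.dist s i (by omega) (by omega), g.dist t i (by omega) (by omega)] at e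
      omega
  have b3 : (β (γ s) ↔ α (γ s)) ↔ (β (γ t) ↔ α (γ t)) :=
    const (n := n) (β := fun i => β (γ i) ↔ α (γ i)) st tn fun i l m => by
      have := hβ _ _ (g.adj i (by omega))
      rw [G.dist_comm (u := γ t), g.dist s i (by omega) (by omega), g.dist i t (by omega) tn] at this
      have e : i - s + (t - i) ≤ t - s + 2 * (k * j) := by omega
      tauto
  intro c
  have : β (γ 0) ↔ β (γ n) := by
    generalize γ n = v at c
    induction c with
    | refl => rfl
    | tail _ a ih => exact ih.trans ((hβ _ _ a.1).2 fun e => by have := a.2.1; omega)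
  tauto

theorem centroid {ι : Type} (S : Finset ι) (I : Finset ℕ) (φ : ℕ → List ι) (hS : ∀ i, ∀ a ∈ φ i, a ∈ S)
    (N F : ℕ) (hF : ∀ p (J : Finset ℕ), J ⊆ I → (∀ i ∈ J, φ i = p) → J.card ≤ F)
    (h : ∀ p, ∃ J : Finset ℕ, J.card ≤ N ∧ ((∀ i ∈ I, p <+: φ i → i ∈ J) ∨ ∀ i ∈ I, ¬ p <+: φ i → i ∈ J)) :
    I.card ≤ N + F + S.card * N := by
  classical
  by_contra hn
  have : ∀ n, ∃ p : List ι, p.length = n ∧ ∃ J : Finset ℕ, J.card ≤ N ∧ ∀ i ∈ I, ¬ p <+: φ i → i ∈ J := by
    intro n
    induction n with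
    | zero => exact ⟨[], rfl, ∅, by simp, by simp⟩
    | succ n ih =>
      obtain ⟨p, rfl, J, j1, j2⟩ := ih
      by_contra c
      choose K k1 k2 using h
      have k3 : ∀ a, ∀ i ∈ I, p ++ [a] <+: φ i → i ∈ K (p ++ [a]) := fun a =>
        (k2 _).resolve_right fun e => c ⟨_, by simp, _, k1 _, e⟩
      have : I ⊆ J ∪ I.filter (φ · = p) ∪ S.biUnion fun a => K (p ++ [a]) := by
        intro i hi
        simp only [Finset.mem_union, Finset.mem_filter, Finset.mem_biUnion]
        by_cases e : p <+: φ i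
        · obtain ⟨_ | ⟨a, l⟩, e⟩ := e
          · exact .inl (.inr ⟨hi, by simpa using e.symm⟩)
          · exact .inr ⟨a, hS i a (by simp [← e]), k3 a i hi ⟨l, by simp [← e]⟩⟩
        · exact .inl (.inl (j2 i hi e))
      have a1 := Finset.card_le_card this
      have a2 := Finset.card_union_le (J ∪ I.filter (φ · = p)) (S.biUnion fun a => K (p ++ [a]))
      have a3 := Finset.card_union_le J (I.filter (φ · = p))
      have a4 := hF p _ (Finset.filter_subset (φ · = p) I) fun i hi => (Finset.mem_filter.1 hi).2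
      have a5 := Finset.card_biUnion_le_card_mul S (fun a => K (p ++ [a])) N fun a _ => k1 _
      omega
  obtain ⟨p, e, J, j1, j2⟩ := this (I.sup (fun i => (φ i).length) + 1)
  have := Finset.card_le_card (show I ⊆ J from fun i hi => j2 i hi fun c => by
    have := c.length_le
    have := Finset.le_sup (f := fun i => (φ i).length) hi
    omega)
  omega

theorem bot (hc : G.Connected) {k W : ℕ} (hl : Loc G k) {ι : Type} (S : Finset ι) (φ : V → List ι)
    (hS : ∀ x, ∀ a ∈ φ x, a ∈ S) (hF : ∀ p (J : Finset V), (∀ x ∈ J, φ x = p) → J.card ≤ W)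
    (hW : ∀ p, ∃ T : Finset V, T.card ≤ W ∧ ∀ x, Cut G (p <+: φ ·) x → x ∈ T) : ∃ Δ, Bot G Δ := by
  classical
  set D := k * W
  set N := W * (2 * D + 1)
  set L := N + W + S.card * N + 1
  refine ⟨2 * L + 2 * D, fun γ n a g an c => ?_⟩
  have inj : ∀ i ≤ n, ∀ j ≤ n, γ i = γ j → i = j := fun i hi j hj e => by
    obtain l | l := le_total i j
    · have := g.dist i j l hj
      rw [e, dist_self] at this
      omega
    · have := g.dist j i l hi
      rw [e, dist_self] at this
      omega
  have := centroid S (Finset.Ico a (a + L)) (fun i => φ (γ i)) (fun i => hS _) N W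
    (fun p J j1 j2 => by
      rw [← Finset.card_image_of_injOn (f := γ) fun i hi j hj => inj i
        (by have := j1 hi; simp at this; omega) j (by have := j1 hj; simp at this; omega)]
      exact hF p _ (by simpa using j2)) fun p => by
    obtain ⟨T, t1, t2⟩ := hW p
    let B := (Finset.range (n + 1)).filter (γ · ∈ T)
    have b1 : B.card ≤ W := (Finset.card_le_card_of_injOn γ (fun i hi => by simp [B] at hi; exact hi.2)
      fun i hi j hj => inj i (by simp [B] at hi; omega) j (by simp [B] at hj; omega)).trans t1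
    refine ⟨B.biUnion fun j => Finset.Icc (j - D) (j + D),
      (Finset.card_biUnion_le_card_mul _ _ (2 * D + 1) fun j _ => by simp; omega).trans
        (Nat.mul_le_mul_right _ b1), ?_⟩
    by_contra e
    push Not at e
    obtain ⟨⟨s, s1, s2, s3⟩, t, t1', t2', t3⟩ := e
    simp only [Finset.mem_Ico, Finset.mem_biUnion, Finset.mem_Icc, B, Finset.mem_filter,
      Finset.mem_range, not_exists, not_and] at s1 s3 t1' t3
    have key : ∀ s t, s ≤ t → a ≤ s → t < a + L → ¬ (p <+: φ (γ s) ↔ p <+: φ (γ t)) →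
        (∀ x, x < n + 1 ∧ γ x ∈ T → x - D ≤ s → ¬ s ≤ x + D) →
        (∀ x, x < n + 1 ∧ γ x ∈ T → x - D ≤ t → ¬ t ≤ x + D) → False := fun s t st as tl d s3 t3 =>
      sep hc hl T t1 t2 g st (by omega) d (fun i hi b l => by have := s3 i ⟨by omega, b⟩; omega)
        (fun i hi b l => by have := t3 i ⟨by omega, b⟩; omega) (c.mono fun x hx => by
          have := hc.dist_triangle (u := γ a) (v := γ s) (w := x)
          rw [g.dist a s as (by omega)] at this
          omega)
    obtain l | l := le_total s t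
    · exact key s t l s1.1 t1'.2 (by tauto) s3 t3
    · exact key t s l t1'.1 s1.2 (by tauto) t3 s3
  simp at this
  omega

end Pool.Agent.H.MP_c7c9a4_al
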