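import Mathlib

set_option autoImplicit false

namespace Pool.Agent.H.MP_c7c9a4_al

open SimpleGraph

variable {V : Type} (G : SimpleGraph V)

/-- joined by a path inside a set -/
def Con (P : V → Prop) : V → V → Prop := Relation.ReflTransGen fun x y => G.Adj x y ∧ P x ∧ P y

/-- geodesic segment -/
structure Geo (γ : ℕ → V) (n : ℕ) : Prop where
  adj : ∀ i < n, G.Adj (γ i) (γ (i + 1))
  dist : ∀ i j, i ≤ j → j ≤ n → G.dist (γ i) (γ j) = j - i

variable {G}

theorem Con.symm {P : V → Prop} {x y : V} (h : Con G P x y) : Con G P y x := by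
  induction h with
  | refl => exact .refl
  | tail _ k ih => exact .head ⟨k.1.symm, k.2.2, k.2.1⟩ ih

theorem Con.mono {P Q : V → Prop} (k : ∀ x, P x → Q x) {x y : V} (h : Con G P x y) : Con G Q x y := by
  induction h with
  | refl => exact .refl
  | tail _ a ih => exact ih.tail ⟨a.1, k _ a.2.1, k _ a.2.2⟩

theorem Con.prop {P : V → Prop} {x y : V} (h : Con G P x y) (k : P x) : P y := by
  induction h with
  | refl => exact k
  | tail _ k _ => exact k.2.2

theorem dist_adj {x y : V} (h : G.Adj x y) : G.dist x y = 1 := dist_eq_one_iff_adj.2 h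

theorem exists_geo (hc : G.Connected) (u v : V) :
    ∃ γ : ℕ → V, γ 0 = u ∧ γ (G.dist u v) = v ∧ Geo G γ (G.dist u v) := by
  obtain ⟨p, hp⟩ := hc.exists_walk_length_eq_dist u v
  have a : ∀ i < G.dist u v, G.Adj (p.getVert i) (p.getVert (i + 1)) := fun i h =>
    p.adj_getVert_succ (hp ▸ h)
  have b : ∀ i j, i ≤ j → j ≤ G.dist u v → G.dist (p.getVert i) (p.getVert j) ≤ j - i := by
    intro i j h
    induction j, h using Nat.le_induction with
    | base => simp
    | succ j h ih =>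
      intro k
      have := ih (by omega)
      have := hc.dist_triangle (u := p.getVert i) (v := p.getVert j) (w := p.getVert (j + 1))
      have := dist_adj (a j (by omega))
      omega
  have e : p.getVert (G.dist u v) = v := hp ▸ p.getVert_length
  refine ⟨p.getVert, p.getVert_zero, e, a, fun i j h k => ?_⟩
  have b1 := b 0 i (by omega) (by omega)
  have b2 := b i j h k
  have b3 := b j _ k le_rfl
  rw [e] at b3
  rw [p.getVert_zero] at b1
  have := hc.dist_triangle (u := u) (v := p.getVert i) (w := v)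
  have := hc.dist_triangle (u := p.getVert i) (v := p.getVert j) (w := v)
  omega

theorem con_geo (hc : G.Connected) (o u : V) :
    Con G (fun x => G.dist o x + G.dist x u = G.dist o u) o u := by
  obtain ⟨γ, h0, h1, h⟩ := exists_geo hc o u
  have a : ∀ i ≤ G.dist o u, G.dist o (γ i) + G.dist (γ i) u = G.dist o u := fun i k => by
    have a := h.dist 0 i (by omega) k
    have b := h.dist i _ k le_rfl
    rw [h0] at a
    rw [h1] at b
    omega
  have : ∀ i ≤ G.dist o u, Con G (fun x => G.dist o x + G.dist x u = G.dist o u) o (γ i) := by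
    intro i
    induction i with
    | zero => intro _; rw [h0]; exact .refl
    | succ i ih => intro k; exact (ih (by omega)).tail ⟨h.adj i k, a i (by omega), a _ k⟩
  simpa only [h1] using this _ le_rfl

/-- the bottleneck property -/
def Bot (G : SimpleGraph V) (Δ : ℕ) : Prop :=
  ∀ γ n a, Geo G γ n → a + Δ ≤ n → ¬ Con G (fun x => Δ < G.dist (γ a) x) (γ 0) (γ n)

/-- layering partition -/
def lay (G : SimpleGraph V) (o : V) : Setoid V where
  r u v := G.dist o u = G.dist o v ∧ Con G (fun x => G.dist o u ≤ G.dist o x) u v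
  iseqv := ⟨fun _ => ⟨rfl, .refl⟩, fun h => ⟨h.1.symm, h.1 ▸ h.2.symm⟩,
    fun h k => ⟨h.1.trans k.1, h.2.trans (h.1 ▸ k.2)⟩⟩

theorem lay_diam (hc : G.Connected) {Δ : ℕ} (hb : Bot G Δ) {o u v : V} (h : (lay G o).r u v) :
    G.dist u v ≤ 6 * Δ + 1 := by
  by_contra hl
  obtain ⟨γ, h0, h1, g⟩ := exists_geo hc u v
  set n := G.dist u v
  have b := hb γ n (n / 2) g (by omega)
  rw [h0, h1] at b
  set m := γ (n / 2)
  have d1 : G.dist u m = n / 2 := by simpa only [h0, Nat.sub_zero] using g.dist 0 (n / 2) (by omega) (by omega)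
  have d2 : G.dist m v = n - n / 2 := by simpa only [h1] using g.dist (n / 2) n (by omega) le_rfl
  have a : G.dist o u ≤ G.dist o m + Δ := by
    by_contra k
    refine b (h.2.mono fun x hx => ?_)
    have := hc.dist_triangle (u := o) (v := m) (w := x)
    omega
  have c : ∀ w, G.dist o w = G.dist o u → 3 * Δ < G.dist m w → Con G (fun x => Δ < G.dist m x) o w :=
    fun w e k => (con_geo hc o w).mono fun x hx => by
      have := hc.dist_triangle (u := m) (v := x) (w := w)
      have := hc.dist_triangle (u := o) (v := x) (w := m)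
      rw [G.dist_comm (u := x) (v := m)] at this
      omega
  exact b ((c u rfl (by rw [G.dist_comm]; omega)).symm.trans (c v h.1.symm (by omega)))

/-- the layering tree -/
def tr (G : SimpleGraph V) (o : V) : SimpleGraph (Quotient (lay G o)) :=
  SimpleGraph.fromRel fun a b => ∃ x y, G.Adj x y ∧ ⟦x⟧ = a ∧ ⟦y⟧ = b

theorem tr_adj {o : V} {a b} : (tr G o).Adj a b ↔ a ≠ b ∧ ∃ x y, G.Adj x y ∧ ⟦x⟧ = a ∧ ⟦y⟧ = b := by
  rw [tr, fromRel_adj]
  refine and_congr_right fun _ => ⟨?_, .inl⟩
  rintro (h | ⟨x, y, h, a, b⟩)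
  exacts [h, ⟨y, x, h.symm, b, a⟩]

theorem tr_walk (o : V) {x y : V} (p : G.Walk x y) :
    ∃ r : (tr G o).Walk ⟦x⟧ ⟦y⟧, r.length ≤ p.length := by
  induction p with
  | nil => exact ⟨.nil, le_rfl⟩
  | @cons x z y h p ih =>
    obtain ⟨r, k⟩ := ih
    by_cases e : (⟦x⟧ : Quotient (lay G o)) = ⟦z⟧
    · exact ⟨r.copy e.symm rfl, by simp; omega⟩
    · exact ⟨.cons (tr_adj.2 ⟨e, x, z, h, rfl, rfl⟩) r, by simpa⟩

theorem tr_conn (hc : G.Connected) (o : V) : (tr G o).Connected := by
  haveI : Nonempty (Quotient (lay G o)) := ⟨⟦o⟧⟩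
  refine ⟨fun a b => ?_⟩
  obtain ⟨x, rfl⟩ := a.exists_rep
  obtain ⟨y, rfl⟩ := b.exists_rep
  obtain ⟨p⟩ := hc x y
  exact ⟨(tr_walk o p).choose⟩

theorem tr_bridge (hc : G.Connected) {o x y : V} (h : G.Adj x y) (l : G.dist o y < G.dist o x) :
    (tr G o).IsBridge s(⟦x⟧, ⟦y⟧) := by
  have ne : (⟦x⟧ : Quotient (lay G o)) ≠ ⟦y⟧ := fun e => l.ne' (Quotient.exact e).1
  refine isBridge_iff.2 fun r => ?_
  have key : ∀ a, ((tr G o).deleteEdges {s(⟦x⟧, ⟦y⟧)}).Reachable ⟦x⟧ a →
      ∀ z, ⟦z⟧ = a → Con G (fun w => G.dist o x ≤ G.dist o w) x z := by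
    intro a r
    rw [reachable_iff_reflTransGen] at r
    induction r with
    | refl => intro z e; exact (Quotient.exact e.symm).2
    | tail _ k ih =>
      intro z e
      obtain ⟨k1, k2⟩ := deleteEdges_adj.1 k
      obtain ⟨k0, s, t, st, rfl, rfl⟩ := tr_adj.1 k1
      have c := ih s rfl
      have c1 := c.prop le_rfl
      have e := Quotient.exact e.symm
      by_cases b : G.dist o x ≤ G.dist o t
      · exact (c.tail ⟨st, c1, b⟩).trans (e.2.mono fun _ k => b.trans k)
      · exfalso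
        apply k2
        have t1 := hc.dist_triangle (u := o) (v := t) (w := s)
        have t2 := hc.dist_triangle (u := o) (v := y) (w := x)
        rw [dist_adj st.symm] at t1
        rw [dist_adj h.symm] at t2
        have e1 : (⟦s⟧ : Quotient (lay G o)) = ⟦x⟧ := (Quotient.sound (show (lay G o).r x s from ⟨by omega, c⟩)).symm
        have e2 : (⟦t⟧ : Quotient (lay G o)) = ⟦y⟧ := (Quotient.sound (show (lay G o).r y t from ⟨by omega,
          (Relation.ReflTransGen.head ⟨h.symm, le_rfl, l.le⟩ (c.mono fun _ k => l.le.trans k)).tail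
            ⟨st, show G.dist o y ≤ G.dist o s by omega, show G.dist o y ≤ G.dist o t by omega⟩⟩)).symm
        rw [e1, e2]; rfl
  exact l.not_ge ((key _ r y rfl).prop le_rfl)

theorem tr_tree (hc : G.Connected) (o : V) : (tr G o).IsTree := by
  refine ⟨tr_conn hc o, isAcyclic_iff_forall_adj_isBridge.2 fun a b h' => ?_⟩
  obtain ⟨k, x, y, h, rfl, rfl⟩ := tr_adj.1 h'
  obtain l | l | l := lt_trichotomy (G.dist o y) (G.dist o x)
  · exact tr_bridge hc h l
  · exact absurd (Quotient.sound (s := lay G o) (⟨l.symm, .single ⟨h, le_rfl, l.ge⟩⟩ : (lay G o).r x y)) k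
  · rw [Sym2.eq_swap]; exact tr_bridge hc h.symm l

theorem tr_low (hc : G.Connected) {o : V} {D : ℕ} (hD : ∀ u v, (lay G o).r u v → G.dist u v ≤ D)
    {a b} (r : (tr G o).Walk a b) : ∀ x y, ⟦x⟧ = a → ⟦y⟧ = b → G.dist x y ≤ (D + 1) * r.length + D := by
  induction r with
  | nil => intro x y e f; simpa using hD _ _ (Quotient.exact (e.trans f.symm))
  | cons h r ih =>
    intro x y e f
    obtain ⟨-, s, t, st, rfl, rfl⟩ := tr_adj.1 h
    have := ih t y rfl f
    have := hD _ _ (Quotient.exact e)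
    have := hc.dist_triangle (u := x) (v := s) (w := y)
    have := hc.dist_triangle (u := s) (v := t) (w := y)
    rw [dist_adj st] at this
    rw [Walk.length_cons, mul_add]
    omega

theorem qi (hc : G.Connected) {Δ : ℕ} (hb : Bot G Δ) :
    ∃ (T : Type) (H : SimpleGraph T), H.IsTree ∧ ∃ ψ : V → T, ψ.Surjective ∧ ∃ D : ℕ, ∀ x y,
      G.dist x y ≤ (D + 1) * H.dist (ψ x) (ψ y) + D ∧ H.dist (ψ x) (ψ y) ≤ G.dist x y := by
  obtain ⟨o⟩ := hc.nonempty
  refine ⟨_, tr G o, tr_tree hc o, Quotient.mk _, Quotient.mk_surjective, 6 * Δ + 1, fun x y => ⟨?_, ?_⟩⟩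
  · obtain ⟨r, k⟩ := (tr_conn hc o).exists_walk_length_eq_dist ⟦x⟧ ⟦y⟧
    exact k ▸ tr_low hc (fun u v => lay_diam hc hb) r x y rfl rfl
  · obtain ⟨p, k⟩ := hc.exists_walk_length_eq_dist x y
    obtain ⟨r, l⟩ := tr_walk o p
    exact (dist_le r).trans (k ▸ l)

end Pool.Agent.H.MP_c7c9a4_al
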