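import Pool.Agent.H.MP_c7c9a4_al.Bot
import Pool.Agent.H.MP_62749c_al.Tree

set_option autoImplicit false

namespace Pool.Agent.H.MP_c7c9a4_al

open SimpleGraph Pool.Agent.Lib.IMon IM
open FreeGroup (invRev)
open Pool.Agent.H.MP_874ce0_al (run run_app run_inv run_idem run_cons run_snoc)

section
variable {M : Type} [IM M] {s t x y : M}

theorem dom_cancel (h : s * x * (s * x)⁻¹ = s * s⁻¹) : s * x * x⁻¹ = s := by
  have a : Le (s * (x * x⁻¹)) s := by simpa using (le_one x).left s
  have b := a.eq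
  rw [rev, rev, inv_inv, mul_assoc s, ← mul_assoc (x * x⁻¹), idem, mul_assoc x, ← rev, ← mul_assoc s x,
    ← mul_assoc s x, h, w1] at b
  exact b

theorem dom_pre (h : s * x * y * (s * x * y)⁻¹ = s * s⁻¹) : s * x * (s * x)⁻¹ = s * s⁻¹ :=
  (dom_mul s x).antisymm (h ▸ dom_mul (s * x) y)

theorem idem_le (h : x * x = x) : Le x 1 := by
  have a : x⁻¹ * x⁻¹ = x⁻¹ := by rw [← rev, h]
  have b := w2 x x⁻¹
  rw [inv_inv, mul_assoc, ← mul_assoc x⁻¹, a, ← mul_assoc, w1, mul_assoc, ← mul_assoc x, h] at b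
  have c := w1 x⁻¹
  rw [inv_inv, mul_assoc, ← b] at c
  exact ⟨x, by rw [← c, h, mul_one]⟩

theorem map_inv' {G : Type} [Group G] (π : M →* G) (x : M) : π x⁻¹ = (π x)⁻¹ := by
  have := congrArg π (w1 x)
  simp only [map_mul] at this
  exact eq_inv_of_mul_eq_one_right (by simpa using this)

theorem inj {G : Type} [Group G] (π : M →* G) (h : ∀ x, π x = 1 → x * x = x) (e : s * s⁻¹ = t * t⁻¹)
    (k : π s = π t) : s = t := by
  have : ∀ s t : M, s * s⁻¹ = t * t⁻¹ → π s = π t → Le t s := fun s t e k => by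
    have := (idem_le (h (s⁻¹ * t) (by simp [map_inv', k]))).left s
    rwa [← mul_assoc, e, w1, mul_one] at this
  exact (this _ _ e.symm k.symm).antisymm (this _ _ e k)

end

variable {X : Type} (R : List (X × Bool) → List (X × Bool) → Prop) (w : List (X × Bool))

def Step (s t : Inv R) : Prop := ∃ a, t = s * q R [a]

def In (s : Inv R) : Prop :=
  Relation.ReflTransGen (Step R) (q R (w ++ invRev w)) s ∧ Relation.ReflTransGen (Step R) s (q R (w ++ invRev w))

def Sch : SimpleGraph {s // In R w s} := SimpleGraph.fromRel fun s t => Step R s.1 t.1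

variable {R w}

theorem reach {s t : Inv R} : Relation.ReflTransGen (Step R) s t ↔ ∃ x, t = s * x := by
  constructor
  · intro h
    induction h with
    | refl => exact ⟨1, by simp⟩
    | tail _ k ih =>
      obtain ⟨x, rfl⟩ := ih
      obtain ⟨a, rfl⟩ := k
      exact ⟨_, mul_assoc ..⟩
  · rintro ⟨x, rfl⟩
    obtain ⟨u, rfl⟩ := q_surj x
    induction u using List.reverseRecOn with
    | nil => rw [q_nil, mul_one]
    | append_singleton u a ih => exact ih.tail ⟨a, by rw [q_app, mul_assoc]⟩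

theorem in_iff {s : Inv R} : In R w s ↔ s * s⁻¹ = q R w * (q R w)⁻¹ := by
  have e : q R w * (q R w)⁻¹ * (q R w * (q R w)⁻¹)⁻¹ = q R w * (q R w)⁻¹ := by rw [rev, inv_inv, idem]
  rw [In, reach, reach, q_app, q_inv]
  constructor
  · rintro ⟨⟨x, a⟩, y, b⟩
    refine Le.antisymm ?_ ?_
    · have := dom_mul (q R w * (q R w)⁻¹) x
      rwa [e, ← a] at this
    · rw [← e, b]; exact dom_mul _ y
  · intro h
    exact ⟨⟨s, by rw [← h, w1]⟩, _, h.symm⟩

theorem in_pre {s t : {s // In R w s}} {x y} (h : t.1 = s.1 * x * y) : In R w (s.1 * x) := by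
  have a := in_iff.1 s.2
  have b := in_iff.1 t.2
  rw [h, ← a] at b
  exact in_iff.2 ((dom_pre b).trans a)

theorem back {s t : {s // In R w s}} {a} (h : t.1 = s.1 * q R [a]) : s.1 = t.1 * q R [(a.1, !a.2)] := by
  have := q_inv (R := R) [a]
  rw [show invRev [a] = [(a.1, !a.2)] by simp [invRev]] at this
  rw [this, h, dom_cancel (h ▸ (in_iff.1 t.2).trans (in_iff.1 s.2).symm)]

theorem sch_adj {s t} : (Sch R w).Adj s t ↔ s ≠ t ∧ ∃ a, t.1 = s.1 * q R [a] := by
  rw [Sch, fromRel_adj]
  refine and_congr_right fun _ => ⟨?_, .inl⟩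
  rintro (h | ⟨a, h⟩)
  exacts [h, ⟨_, back h⟩]

theorem walk (u : List (X × Bool)) : ∀ s t : {s // In R w s}, t.1 = s.1 * q R u →
    ∃ p : (Sch R w).Walk s t, p.length ≤ u.length := by
  induction u with
  | nil => intro s t h; obtain rfl := Subtype.ext (h.trans (mul_one _)); exact ⟨.nil, le_rfl⟩
  | cons a u ih =>
    intro s t h
    rw [← List.singleton_append, q_app, ← mul_assoc] at h
    obtain ⟨p, k⟩ := ih ⟨_, in_pre h⟩ t h
    by_cases e : s = ⟨_, in_pre h⟩
    · exact ⟨p.copy e.symm rfl, by simp; omega⟩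
    · exact ⟨.cons (sch_adj.2 ⟨e, a, rfl⟩) p, by simpa⟩

variable (R w) in
def base : {s // In R w s} := ⟨_, .refl, .refl⟩

theorem from_base (s : {s // In R w s}) : ∃ u, s.1 = (base R w).1 * q R u := by
  obtain ⟨x, h⟩ := reach.1 s.2.1
  obtain ⟨u, rfl⟩ := q_surj x
  exact ⟨u, h⟩

theorem conn : (Sch R w).Connected := by
  haveI : Nonempty {s // In R w s} := ⟨base R w⟩
  have : ∀ s, (Sch R w).Reachable (base R w) s := fun s =>
    ⟨(walk _ _ _ (from_base s).choose_spec).choose⟩
  exact ⟨fun a b => (this a).symm.trans (this b)⟩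

open Classical in
noncomputable def dl (c : {s // In R w s} → {s // In R w s} → Prop) (p : {s // In R w s} × Prop)
    (a : X × Bool) : Option ({s // In R w s} × Prop) :=
  if h : In R w (p.1.1 * q R [a]) then some (⟨_, h⟩, (p.2 ↔ c p.1 ⟨_, h⟩)) else none

theorem dl_eq {c} {s t : {s // In R w s}} {a} (h : t.1 = s.1 * q R [a]) (b) :
    dl c (s, b) a = some (t, (b ↔ c s t)) := by
  obtain ⟨t, k⟩ := t
  obtain rfl : t = _ := h
  exact dif_pos k

theorem dl_some {c} {p r : {s // In R w s} × Prop} {a} (h : dl c p a = some r) :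
    r.1.1 = p.1.1 * q R [a] := by
  unfold dl at h
  split_ifs at h
  cases h
  rfl

theorem run_some {c} (u) : ∀ {p r : {s // In R w s} × Prop}, run (dl c) p u = some r →
    r.1.1 = p.1.1 * q R u := by
  induction u with
  | nil => intro p r h; cases h; exact (mul_one _).symm
  | cons a u ih =>
    intro p r h
    rw [run_cons, Option.bind_eq_some_iff] at h
    obtain ⟨d, h, k⟩ := h
    rw [ih k, dl_some h, mul_assoc, ← q_app]
    rfl

theorem run_ex {c} (u) : ∀ {s t : {s // In R w s}} (b), t.1 = s.1 * q R u →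
    ∃ b', run (dl c) (s, b) u = some (t, b') := by
  induction u with
  | nil => intro s t b h; obtain rfl := Subtype.ext (h.trans (mul_one _)); exact ⟨b, rfl⟩
  | cons a u ih =>
    intro s t b h
    rw [← List.singleton_append, q_app, ← mul_assoc] at h
    rw [run_cons, dl_eq (t := ⟨_, in_pre h⟩) rfl]
    exact ih _ h

theorem run_loc {α P : {s // In R w s} → Prop} {ε : Prop} {o} {k : ℕ}
    (hε : ∀ x, Cut (Sch R w) α x → (Sch R w).dist o x ≤ k → (P x ↔ ε)) (u) :
    ∀ {s t : {s // In R w s}} (b), t.1 = s.1 * q R u → (Sch R w).dist o s + u.length ≤ k →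
    run (dl fun x y => P x → (α x ↔ α y)) (s, b) u = some (t, (b ↔ (ε → (α s ↔ α t)))) := by
  induction u with
  | nil => intro s t b h _; obtain rfl := Subtype.ext (h.trans (mul_one _)); simp [run]
  | cons a u ih =>
    intro s t b h l
    rw [← List.singleton_append, q_app, ← mul_assoc] at h
    set z : {s // In R w s} := ⟨_, in_pre h⟩
    obtain ⟨p, hp⟩ := walk [a] s z rfl
    have := (dist_le p).trans hp
    have := (conn (R := R) (w := w)).dist_triangle (u := o) (v := s) (w := z)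
    rw [run_cons, dl_eq (t := z) rfl, Option.bind_some, ih _ h (by simp at *; omega)]
    congr 2
    by_cases e : α s ↔ α z
    · simp [e]
    · have := hε s ⟨z, sch_adj.2 ⟨fun f => e (by rw [f]), a, rfl⟩, e⟩ (by omega)
      apply propext
      tauto

theorem loc {k : ℕ} (hk : ∀ u v, R u v → u.length ≤ k ∧ v.length ≤ k) : Loc (Sch R w) (2 * k + 1) := by
  intro α P h
  set δ := dl fun x y => P x → (α x ↔ α y)
  have hV : ∀ c x c', True → δ c x = some c' → True ∧ δ c' (x.1, !x.2) = some c := by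
    rintro ⟨s, b⟩ a ⟨t, b'⟩ - e
    have e1 : t.1 = s.1 * q R [a] := dl_some e
    have e2 := (dl_eq e1 b).symm.trans e
    cases e2
    refine ⟨trivial, (dl_eq (back e1) _).trans ?_⟩
    congr 2
    by_cases e : α s ↔ α t
    · simp [e]
    · have a : (Sch R w).Adj s t := sch_adj.2 ⟨fun f => e (by rw [f]), a, e1⟩
      have a1 := h s t ⟨t, a, e⟩ ⟨s, a.symm, by tauto⟩ (by rw [dist_adj a]; omega)
      have a2 := h t s ⟨s, a.symm, by tauto⟩ ⟨t, a, e⟩ (by rw [dist_adj a.symm]; omega)
      apply propext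
      tauto
  have hw : ∀ u v, R u v → ∀ c, True → run δ c u = run δ c v := by
    rintro u v r ⟨s, b⟩ -
    have e := q_rel r
    by_cases i : In R w (s.1 * q R u)
    · have hε : ∀ x, Cut (Sch R w) α x → (Sch R w).dist s x ≤ k →
          (P x ↔ ∃ y, Cut (Sch R w) α y ∧ (Sch R w).dist s y ≤ k ∧ P y) := fun x a b =>
        ⟨fun c => ⟨x, a, b, c⟩, fun ⟨y, c, d, f⟩ => h y x c a (by
          have := (conn (R := R) (w := w)).dist_triangle (u := y) (v := s) (w := x)
          rw [(Sch R w).dist_comm (u := y) (v := s)] at this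
          omega) f⟩
      rw [run_loc hε u (t := ⟨_, i⟩) b rfl (by simpa using (hk u v r).1),
        run_loc hε v (t := ⟨_, i⟩) b (by rw [← e]) (by simpa using (hk u v r).2)]
    · have : ∀ v, q R u = q R v → run δ (s, b) v = none := fun v e =>
        Option.eq_none_iff_forall_ne_some.2 fun r f => i (by
          have := r.1.2
          rwa [run_some v f, ← e] at this)
      rw [this u rfl, this v e]
  have uniq : ∀ u v x b b', run δ (base R w, True) u = some (x, b) →
      run δ (base R w, True) v = some (x, b') → b = b' := fun u v x b b' e f => by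
    have := sound hV hw (u := w ++ invRev w ++ u) (v := w ++ invRev w ++ v)
      ((run_some u e).symm.trans (run_some v f)) (base R w, True) trivial
    obtain ⟨b, g⟩ := run_ex (c := fun x y => P x → (α x ↔ α y)) w (s := base R w)
      (t := ⟨q R w, in_iff.2 rfl⟩) True (q1 w).symm
    rw [run_app, run_app δ _ (w ++ invRev w), run_idem hV trivial, g] at this
    simpa [e, f] using this
  have val : ∀ u x b, run δ (base R w, True) u = some (x, b) →
      ((∃ u, run δ (base R w, True) u = some (x, True)) ↔ b) := fun u x b e =>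
    ⟨fun ⟨v, f⟩ => uniq _ _ _ _ _ f e ▸ trivial, fun c => ⟨u, eq_true c ▸ e⟩⟩
  refine ⟨fun x => ∃ u, run δ (base R w, True) u = some (x, True), fun x y a => ?_⟩
  obtain ⟨-, a, e⟩ := sch_adj.1 a
  obtain ⟨u, f⟩ := from_base x
  obtain ⟨b, g⟩ := run_ex (c := fun x y => P x → (α x ↔ α y)) u True f
  beta_reduce
  rw [val u x b g, val (u ++ [a]) y (b ↔ (P x → (α x ↔ α y))) (by rw [run_snoc, g, Option.bind_some]; exact dl_eq (c := fun x y => P x → (α x ↔ α y)) e b)]
  tauto

open Pool.Agent.H.MP_62749c_al in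
theorem main [Finite X] (hR : {p : List (X × Bool) × List (X × Bool) | R p.1 p.2}.Finite)
    {G : Type} [Group G] (π : Inv R →* G) (h : ∀ x, π x = 1 → x * x = x) (F : Subgroup G)
    [F.FiniteIndex] [IsFreeGroup F] : ∃ Δ, Bot (Sch R w) Δ := by
  classical
  obtain ⟨k, hk⟩ := (hR.image fun p => p.1.length + p.2.length).bddAbove
  obtain ⟨τ, hτ⟩ := exists_coarse F
  obtain ⟨C, S, hS, hC⟩ := exists_bound (Set.finite_iUnion fun b : X × Bool => hτ.step (π (q R [b])))
  let φ : {s // In R w s} → FreeGroup _ := fun x => (τ (π (base R w).1))⁻¹ * τ (π x.1)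
  have st : ∀ x y, (Sch R w).Adj x y → ((φ x)⁻¹ * φ y).norm ≤ C ∧ (φ x)⁻¹ * φ y ∈ Supp S := fun x y a => by
    obtain ⟨-, a, e⟩ := sch_adj.1 a
    exact hC _ (Set.mem_iUnion.2 ⟨a, π x.1, by simp [φ, e]⟩)
  have su : ∀ x, φ x ∈ Supp S := fun x => by
    have := (reachable_iff_reflTransGen _ _).1 (conn (R := R) (w := w) (base R w) x)
    induction this with
    | refl => simp [φ]
    | tail _ a ih => simpa using mul_mem ih (st _ _ a).2
  have hB := (finite_ball hS (2 * C)).biUnion fun x _ => hτ.fib x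
  have bd : ∀ (g : FreeGroup _) (T : Finset {s // In R w s}), (∀ x ∈ T, (g⁻¹ * φ x).norm ≤ C) →
      T.card ≤ hB.toFinset.card := fun g T hT => by
    obtain rfl | ⟨x, hx⟩ := T.eq_empty_or_nonempty
    · simp
    refine Finset.card_le_card_of_injOn (fun y => (π x.1)⁻¹ * π y.1) (fun y hy => ?_) fun y _ z _ e =>
      Subtype.ext (inj π h ((in_iff.1 y.2).trans (in_iff.1 z.2).symm) (mul_left_cancel e))
    simp only [Set.Finite.coe_toFinset]
    refine Set.mem_biUnion (x := (φ x)⁻¹ * φ y) ⟨?_, mul_mem (inv_mem (su x)) (su y)⟩ ⟨π x.1, by simp [φ]⟩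
    have := FreeGroup.norm_mul_le (g⁻¹ * φ x)⁻¹ (g⁻¹ * φ y)
    rw [FreeGroup.norm_inv_eq, show (g⁻¹ * φ x)⁻¹ * (g⁻¹ * φ y) = (φ x)⁻¹ * φ y by group] at this
    have := hT x hx
    have := hT y hy
    omega
  refine bot conn (loc (k := k) fun u v r => ?_) (hS.toFinset ×ˢ Finset.univ) (fun x => (φ x).toWord)
    (fun x a ha => by simpa using su x a ha) (W := hB.toFinset.card)
    (fun p J hJ => bd (FreeGroup.mk p) J fun x hx => by rw [← hJ x hx, FreeGroup.mk_toWord]; simp) fun p => ?_
  · have := hk ⟨(u, v), r, rfl⟩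
    simp only at this
    omega
  have c : ∀ x, Cut (Sch R w) (fun x => p <+: (φ x).toWord) x → ((FreeGroup.mk p)⁻¹ * φ x).norm ≤ C := by
    rintro x ⟨y, a, e⟩
    by_cases i : p <+: (φ x).toWord
    · exact (cross i (by tauto)).1.trans (st _ _ a).1
    · exact (cross (g := φ y) (by tauto) i).2.trans (st _ _ a.symm).1
  have f : {x | Cut (Sch R w) (fun x => p <+: (φ x).toWord) x}.Finite := by
    by_contra n
    obtain ⟨T, t1, t2⟩ := Set.Infinite.exists_subset_card_eq n (hB.toFinset.card + 1)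
    have := bd _ T fun x hx => c x (t1 hx)
    omega
  exact ⟨f.toFinset, bd _ _ fun x hx => c x (by simpa using hx), by simp⟩

end Pool.Agent.H.MP_c7c9a4_al
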